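import Pool.Agent.Y152.BD.Fam
import Pool.Agent.Y83.ZPI.Count

/-!
Places of `ℂ` at which a rational number is near to a root of a given integral polynomial
(helper file).
-/

set_option autoImplicit false

open Polynomial

namespace Pool.Agent.Y83.ZPI

variable {k : Type} [Field k] [Algebra k ℂ]

/-- Above almost every prime number which divides the numerator of `P l (τ)` there is a place
containing given elements at which `τ` is near to a root of `P l`. -/
theorem exists_places [IsAlgClosed k] [CharZero k] {M : ℕ} (W : Set k) (hW : W.Finite)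
    (P : Fin M → ℤ[X]) (hP : ∀ l, 0 < (P l).natDegree) :
    ∃ D : ℕ, ∀ (τ : ℚ) (l : Fin M) (p : ℕ), p.Prime → D < p →
      (p : ℤ) ∣ (aeval τ (P l) : ℚ).num →
      ∀ (ρ : Type) (x : ρ → ℂ), AlgebraicIndependent k x →
      ∃ (V : ValuationSubring ℂ) (α : k), aeval α (P l) = 0 ∧
        V.valuation (algebraMap k ℂ (((τ : ℚ) : k) - α)) < 1 ∧
        (∀ z ∈ W, algebraMap k ℂ z ∈ V) ∧ ∀ j, x j ∈ V := by
  classical
  let W' : Set k := W ∪ Set.range fun l => (((P l).leadingCoeff : ℤ) : k)⁻¹
  have hW' : W'.Finite := hW.union (Set.finite_range _)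
  have := hW'.to_subtype
  obtain ⟨D, hD⟩ := Pool.Agent.W466.ZC.exists_val' (fun z : W' => (z : k))
  refine ⟨D, fun τ l p hp hpD hdvd ρ x hx => ?_⟩
  obtain ⟨V, hV, hVt, hVx⟩ := hD p hp hpD ρ x hx
  have hpV : V.valuation (p : ℂ) < 1 := by
    rwa [ValuationSubring.mem_nonunits_iff] at hV
  have hP0 : P l ≠ 0 := by
    intro h
    have := hP l
    rw [h, natDegree_zero] at this
    exact lt_irrefl _ this
  have hlc0 : (((P l).leadingCoeff : ℤ) : k) ≠ 0 := by
    exact_mod_cast leadingCoeff_ne_zero.2 hP0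
  let F : Polynomial k := (P l).map (Int.castRingHom k)
  have hF0 : F ≠ 0 := by
    intro h
    have h1 := congrArg (fun q : Polynomial k => q.coeff (P l).natDegree) h
    simp only [F, coeff_map, coeff_zero, eq_intCast] at h1
    exact hlc0 h1
  have hlcF : F.leadingCoeff = (((P l).leadingCoeff : ℤ) : k) := by
    simp only [F]
    rw [leadingCoeff_map_of_injective (RingHom.injective_int _), eq_intCast]
  have hsp : F.Splits := IsAlgClosed.splits F
  have hev := hsp.eval_eq_prod_roots ((τ : ℚ) : k)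
  have hFτ : F.eval ((τ : ℚ) : k) = (((aeval τ (P l) : ℚ)) : k) := by
    simp only [F]
    rw [eval_map, ← Rat.coe_castHom, aeval_def, hom_eval₂]
    congr 1
    exact RingHom.ext_int _ _
  have hlt : V.valuation (algebraMap k ℂ ((aeval τ (P l) : ℚ) : k)) < 1 := by
    rw [map_ratCast]
    exact TH526.ZL.v_rat_lt V hp hpV hdvd
  have hinv : V.valuation (algebraMap k ℂ ((((P l).leadingCoeff : ℤ) : k)⁻¹)) ≤ 1 :=
    (ValuationSubring.valuation_le_one_iff _ _).2 (hVt ⟨_, Or.inr ⟨l, rfl⟩⟩)
  have hprod : V.valuation (algebraMap k ℂ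
      ((F.roots.map fun a => ((τ : ℚ) : k) - a).prod)) < 1 := by
    have h1 : (F.roots.map fun a => ((τ : ℚ) : k) - a).prod =
        (((P l).leadingCoeff : ℤ) : k)⁻¹ * ((aeval τ (P l) : ℚ) : k) := by
      rw [← hFτ, hev, hlcF]
      field_simp
    rw [h1, map_mul, map_mul]
    exact (mul_le_of_le_one_left' hinv).trans_lt hlt
  have hex : ∃ α ∈ F.roots, V.valuation (algebraMap k ℂ (((τ : ℚ) : k) - α)) < 1 := by
    by_contra hcon
    push Not at hcon
    have h2 : ∀ s : Multiset k, (∀ a ∈ s, 1 ≤ V.valuation (algebraMap k ℂ (((τ : ℚ) : k) - a))) →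
        1 ≤ V.valuation (algebraMap k ℂ ((s.map fun a => ((τ : ℚ) : k) - a).prod)) := by
      intro s
      induction s using Multiset.induction_on with
      | empty => intro _; simp
      | cons a s ih =>
        intro h
        rw [Multiset.map_cons, Multiset.prod_cons, map_mul, map_mul]
        exact one_le_mul (h a (Multiset.mem_cons_self a s))
          (ih fun b hb => h b (Multiset.mem_cons_of_mem hb))
    exact absurd hprod (not_lt.2 (h2 F.roots hcon))
  obtain ⟨α, hα, hlt'⟩ := hex
  refine ⟨V, α, ?_, hlt', fun z hz => hVt ⟨z, Or.inl hz⟩, hVx⟩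
  have h3 := (mem_roots hF0).1 hα
  rw [IsRoot.def] at h3
  simp only [F] at h3
  rw [eval_map] at h3
  rw [aeval_def]
  exact h3

end Pool.Agent.Y83.ZPI
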